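import Pool.Agent.Work.MP_f4f44f_al.Proof

namespace Pool.Agent.Work.MP_f4f44f_al.Parked.NoFiniteBasis

open Pool.Agent.Work.MP_f4f44f_al

/-- There is a compact metric space `A` such that no finite subset of the arc component `T(A)*`
of the identity in the homeomorphism group `T(A)` generates a dense subgroup of `T(A)*`. -/
theorem result :
    ∃ (A : Type) (_ : MetricSpace A) (_ : CompactSpace A),
      ∀ S : Finset (A ≃ₜ A), (S : Set (A ≃ₜ A)) ⊆ arcComponent A →
        ¬ arcComponent A ⊆
          @closure (A ≃ₜ A) (unifTop A) (Subgroup.closure (S : Set (A ≃ₜ A)) : Set (A ≃ₜ A)) :=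
  ⟨A, metricA, isCompact_iff_compactSpace.1 isCompact_A, main⟩

end Pool.Agent.Work.MP_f4f44f_al.Parked.NoFiniteBasis
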